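import Pool.Agent.H3.SelA

open Filter Topology Set Metric MeasureTheory Pool.Agent.H3.Sel
open scoped ENNReal BoundedContinuousFunction

namespace Pool.Agent.Results.MP_eb9ef7_pr.Full

lemma meas_dist {E Ω : Type} [MetricSpace E] [MeasurableSpace Ω] {X : Ω → Set E}
    (h : ∀ G, IsOpen G → MeasurableSet {ω | (X ω ∩ G).Nonempty}) (x : E) :
    Measurable fun ω => infEDist x (X ω) := by
  refine measurable_of_Iio fun c => ?_
  have : (fun ω => infEDist x (X ω)) ⁻¹' Iio c = {ω | (X ω ∩ {y | edist x y < c}).Nonempty} := by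
    ext ω
    simp only [mem_preimage, mem_Iio, infEDist_lt_iff, mem_setOf_eq]
    rfl
  rw [this]
  exact h _ (isOpen_lt (by fun_prop) continuous_const)

lemma conv {S Ω' : Type} {Ω : ℕ → Type} [TopologicalSpace S] [MeasurableSpace S] [BorelSpace S]
    [∀ n, MeasurableSpace (Ω n)] [MeasurableSpace Ω'] (P : ∀ n, Measure (Ω n))
    [∀ n, IsProbabilityMeasure (P n)] (Q : Measure Ω') [IsProbabilityMeasure Q]
    {f : ∀ n, Ω n → S} {g : Ω' → S} (hf : ∀ n, Measurable (f n)) (hg : Measurable g) :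
    Tendsto (fun n => ProbabilityMeasure.map ⟨P n, inferInstance⟩ (hf n).aemeasurable) atTop
      (𝓝 (ProbabilityMeasure.map ⟨Q, inferInstance⟩ hg.aemeasurable)) ↔
    ∀ φ : S →ᵇ ℝ, Tendsto (fun n => ∫ ω, φ (f n ω) ∂P n) atTop (𝓝 (∫ ω, φ (g ω) ∂Q)) := by
  rw [ProbabilityMeasure.tendsto_iff_forall_integral_tendsto]
  refine forall_congr' fun φ => ?_
  simp only [ProbabilityMeasure.toMeasure_map, ProbabilityMeasure.coe_mk]
  rw [integral_map hg.aemeasurable φ.continuous.measurable.aestronglyMeasurable]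
  simp only [fun n => integral_map (μ := P n) (hf n).aemeasurable
    φ.continuous.measurable.aestronglyMeasurable]

theorem result {E Ω' : Type} {Ω : ℕ → Type} [NormedAddCommGroup E] [NormedSpace ℝ E]
    [CompleteSpace E] [TopologicalSpace.SeparableSpace E] [MeasurableSpace E] [BorelSpace E]
    [∀ n, MeasurableSpace (Ω n)] [MeasurableSpace Ω'] (P : ∀ n, Measure (Ω n))
    [∀ n, IsProbabilityMeasure (P n)] (Q : Measure Ω') [IsProbabilityMeasure Q]
    (X : ∀ n, Ω n → Set E) (Y : Ω' → Set E)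
    (cX : ∀ n ω, IsClosed (X n ω)) (cY : ∀ ω, IsClosed (Y ω))
    (mX : ∀ n G, IsOpen G → MeasurableSet {ω | (X n ω ∩ G).Nonempty})
    (mY : ∀ G, IsOpen G → MeasurableSet {ω | (Y ω ∩ G).Nonempty})
    (nX : ∀ n, ∀ᵐ ω ∂P n, (X n ω).Nonempty) (nY : ∀ᵐ ω ∂Q, (Y ω).Nonempty)
    (h : ∀ (k : ℕ) (x : Fin k → E) (φ : (Fin k → ℝ≥0∞) →ᵇ ℝ),
      Tendsto (fun n => ∫ ω, φ (fun i => infEDist (x i) (X n ω)) ∂P n) atTop
        (𝓝 (∫ ω, φ (fun i => infEDist (x i) (Y ω)) ∂Q))) :
    ∃ (ξ : ∀ n, Ω n → E) (η : Ω' → E), (∀ n, Measurable (ξ n)) ∧ Measurable η ∧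
      (∀ n, ∀ᵐ ω ∂P n, ξ n ω ∈ X n ω) ∧ (∀ᵐ ω ∂Q, η ω ∈ Y ω) ∧
      ∀ g : E →ᵇ ℝ, Tendsto (fun n => ∫ ω, g (ξ n ω) ∂P n) atTop (𝓝 (∫ ω, g (η ω) ∂Q)) := by
  obtain ⟨D, hD⟩ := TopologicalSpace.exists_dense_seq E
  have dX := fun n => meas_dist (mX n)
  have dY := meas_dist mY
  have bad : (⋃ j, {c : ℝ | 0 < Q {ω | (infEDist (D j) (Y ω)).toReal = c}}).Countable :=
    countable_iUnion fun j => Measure.countable_meas_level_set_pos (dY (D j)).ennreal_toReal
  have ex : ∀ k : ℕ, ∃ c : ℝ, (0 < c ∧ c < 1 / 2 ^ k) ∧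
      ∀ j, ∀ᵐ ω ∂Q, infEDist (D j) (Y ω) ≠ ENNReal.ofReal c := by
    intro k
    obtain ⟨c, hc, hc'⟩ := (bad.dense_compl ℝ).inter_open_nonempty (Ioo 0 (1 / 2 ^ k)) isOpen_Ioo
      (nonempty_Ioo.2 (by positivity))
    refine ⟨c, hc, fun j => ?_⟩
    have : Q {ω | (infEDist (D j) (Y ω)).toReal = c} = 0 :=
      le_antisymm (not_lt.1 fun h' => hc' (mem_iUnion.2 ⟨j, h'⟩)) zero_le
    refine measure_mono_null (fun ω hω => ?_) this
    have hω' : infEDist (D j) (Y ω) = ENNReal.ofReal c := not_not.1 hω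
    rw [mem_setOf_eq, hω', ENNReal.toReal_ofReal hc.1.le]
  choose r hr hr' using ex
  have h0 : ∀ k, 0 < r k := fun k => (hr k).1
  have h1 : ∀ k, r k ≤ 1 / 2 ^ k := fun k => (hr k).2.le
  have m1 : ∀ n, Measurable fun ω => s D r fun j => infEDist (D j) (X n ω) := fun n =>
    (s_meas D r).comp (measurable_pi_lambda _ fun j => dX n (D j))
  have m2 : Measurable fun ω => s D r fun j => infEDist (D j) (Y ω) :=
    (s_meas D r).comp (measurable_pi_lambda _ fun j => dY (D j))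
  refine ⟨_, _, m1, m2, fun n => (nX n).mono fun ω hω => s_mem hD h0 h1 hω (cX n ω),
    nY.mono fun ω hω => s_mem hD h0 h1 hω (cY ω), ?_⟩
  rw [← conv P Q m1 m2]
  refine tendsto_of_forall_isClosed_limsup_le' fun C hC => ?_
  simp only [ProbabilityMeasure.map_apply' _ _ hC.measurableSet, ProbabilityMeasure.coe_mk]
  set K := closure (s D r ⁻¹' C) with hK
  set B : ∀ k : ℕ, Set (Fin k → ℝ≥0∞) := fun k => (fun t (i : Fin k) => t i) '' K with hB
  have cB : ∀ k, IsClosed (B k) := fun k =>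
    (isClosed_closure.isCompact.image (by fun_prop)).isClosed
  have f1 : ∀ k n, Measurable fun ω (i : Fin k) => infEDist (D i) (X n ω) := fun k n =>
    measurable_pi_lambda _ fun j => dX n (D j)
  have f2 : ∀ k, Measurable fun ω (i : Fin k) => infEDist (D i) (Y ω) := fun k =>
    measurable_pi_lambda _ fun j => dY (D j)
  set A : ℕ → Set Ω' := fun k => (fun ω (i : Fin k) => infEDist (D i) (Y ω)) ⁻¹' B k with hA
  have anti : Antitone A := by
    intro k l hkl ω ⟨t, ht, e⟩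
    exact ⟨t, ht, funext fun i => congrFun e (i.castLE hkl)⟩
  have lim := tendsto_measure_iInter_atTop (μ := Q)
    (fun k => (f2 k (cB k).measurableSet).nullMeasurableSet) anti ⟨0, measure_ne_top _ _⟩
  refine le_trans (ge_of_tendsto' lim fun k => ?_) (measure_mono_ae ?_)
  · have := ProbabilityMeasure.limsup_measure_closed_le_of_tendsto
      ((conv P Q (f1 k) (f2 k)).2 (h k fun i => D i)) (cB k)
    simp only [ProbabilityMeasure.map_apply' _ _ (cB k).measurableSet,
      ProbabilityMeasure.coe_mk] at this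
    refine le_trans (limsup_le_limsup (Eventually.of_forall fun n => measure_mono ?_)) this
    exact fun ω hω => ⟨_, subset_closure hω, rfl⟩
  · filter_upwards [nY, ae_all_iff.2 fun j => ae_all_iff.2 fun k => hr' k j] with ω hω hn hm
    choose t ht e using mem_iInter.1 hm
    have tl : Tendsto t atTop (𝓝 fun j => infEDist (D j) (Y ω)) := by
      refine tendsto_pi_nhds.2 fun j => tendsto_const_nhds.congr' ?_
      filter_upwards [eventually_gt_atTop j] with k hk
      exact (congrFun (e k) ⟨j, hk⟩).symm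
    have mK : (fun j => infEDist (D j) (Y ω)) ∈ K :=
      isClosed_closure.mem_of_tendsto tl (Eventually.of_forall ht)
    have := (s_cont hD h0 h1 hω hn).continuousWithinAt.mem_closure mK (mapsTo_preimage _ _)
    rwa [hC.closure_eq] at this

end Pool.Agent.Results.MP_eb9ef7_pr.Full
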